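import Mathlib

/-!
# H3E: second neighbourhoods in Eulerian oriented graphs (counting lemmas)
-/

set_option autoImplicit false

namespace H3E

open Finset

variable {V : Type} [Fintype V]

/-- Out-neighbours. -/
noncomputable def A (r : V → V → Prop) (x : V) : Finset V := by
  classical exact univ.filter (r x)

/-- Second out-neighbours. -/
noncomputable def B (r : V → V → Prop) (x : V) : Finset V := by
  classical exact univ.filter fun w => w ≠ x ∧ ¬ r x w ∧ ∃ u, r x u ∧ r u w

theorem mem_A {r : V → V → Prop} {x y : V} : y ∈ A r x ↔ r x y := by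
  classical
  simp [A]

theorem mem_B {r : V → V → Prop} {x w : V} : w ∈ B r x ↔ w ≠ x ∧ ¬ r x w ∧ ∃ u, r x u ∧ r u w := by
  classical
  simp [B]

/-- The number of arcs inside the out-neighbourhood of x. -/
noncomputable def tr (r : V → V → Prop) (x : V) : ℕ := by
  classical exact ∑ b ∈ A r x, (A r x ∩ A r b).card

variable {r : V → V → Prop}

theorem sdiff_sub (ha : ∀ u v, r u v → ¬ r v u) {x b : V} (hb : b ∈ A r x) [DecidableEq V] :
    A r b \ A r x ⊆ B r x := by
  intro w hw
  rw [mem_sdiff, mem_A, mem_A] at hw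
  rw [mem_A] at hb
  rw [mem_B]
  refine ⟨?_, hw.2, b, hb, hw.1⟩
  rintro rfl
  exact ha _ _ hb hw.1

theorem card_le (ha : ∀ u v, r u v → ¬ r v u) {x b : V} (hb : b ∈ A r x) [DecidableEq V] :
    (A r b).card ≤ (A r x ∩ A r b).card + (B r x).card := by
  have h1 := card_le_card (sdiff_sub ha hb)
  have h2 := card_sdiff_add_card_inter (A r b) (A r x)
  rw [inter_comm] at h2
  omega

/-- The one-sided inequality. -/
theorem sum_card_le (ha : ∀ u v, r u v → ¬ r v u) (x : V) :
    ∑ b ∈ A r x, (A r b).card ≤ tr r x + (A r x).card * (B r x).card := by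
  classical
  calc ∑ b ∈ A r x, (A r b).card ≤ ∑ b ∈ A r x, ((A r x ∩ A r b).card + (B r x).card) :=
        sum_le_sum fun b hb => card_le ha hb
    _ = tr r x + (A r x).card * (B r x).card := by
        rw [sum_add_distrib, sum_const, smul_eq_mul]
        unfold tr
        congr!

omit [Fintype V] in
/-- Arcs, reversed arcs and nonadjacent pairs inside a finite set. -/
theorem pairs (hl : ∀ v, ¬ r v v) (ha : ∀ u v, r u v → ¬ r v u) (X : Finset V) [DecidableEq V]
    [DecidableRel r] :
    2 * ((X ×ˢ X).filter fun p => r p.1 p.2).card +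
      ((X ×ˢ X).filter fun p => p.1 ≠ p.2 ∧ ¬ r p.1 p.2 ∧ ¬ r p.2 p.1).card + X.card = X.card * X.card := by
  have h1 : ((X ×ˢ X).filter fun p => r p.2 p.1).card = ((X ×ˢ X).filter fun p => r p.1 p.2).card := by
    refine card_bij' (fun p _ => p.swap) (fun p _ => p.swap) ?_ ?_ ?_ ?_
    · intro p hp
      simp only [mem_filter, mem_product, Prod.fst_swap, Prod.snd_swap] at hp ⊢
      exact ⟨⟨hp.1.2, hp.1.1⟩, hp.2⟩
    · intro p hp
      simp only [mem_filter, mem_product, Prod.fst_swap, Prod.snd_swap] at hp ⊢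
      exact ⟨⟨hp.1.2, hp.1.1⟩, hp.2⟩
    · intro p _
      rfl
    · intro p _
      rfl
  have h2 : X.card * X.card = (X ×ˢ X).card := (card_product X X).symm
  have h3 : X.card = ((X ×ˢ X).filter fun p => p.1 = p.2).card := by
    refine card_bij' (fun v _ => (v, v)) (fun p _ => p.1) ?_ ?_ ?_ ?_
    · intro v hv
      simp [hv]
    · intro p hp
      simp only [mem_filter, mem_product] at hp
      exact hp.1.1
    · intro v _
      rfl
    · intro p hp
      simp only [mem_filter, mem_product] at hp
      exact Prod.ext rfl hp.2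
  rw [h2]
  have h4 : (X ×ˢ X).card = ∑ p ∈ X ×ˢ X, ((if r p.1 p.2 then 1 else 0) + (if r p.2 p.1 then 1 else 0) +
      (if p.1 ≠ p.2 ∧ ¬ r p.1 p.2 ∧ ¬ r p.2 p.1 then 1 else 0) + (if p.1 = p.2 then 1 else 0)) := by
    rw [card_eq_sum_ones]
    refine sum_congr rfl fun p _ => ?_
    by_cases h5 : p.1 = p.2
    · have : ¬ r p.2 p.2 := hl _
      simp [h5, this]
    · by_cases h6 : r p.1 p.2
      · simp [h5, h6, ha _ _ h6]
      · by_cases h7 : r p.2 p.1
        · simp [h5, h6, h7]
        · simp [h5, h6, h7]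
  rw [h4, sum_add_distrib, sum_add_distrib, sum_add_distrib, ← card_filter, ← card_filter, ← card_filter,
    ← card_filter, h1, ← h3]
  ring

theorem tr_eq (x : V) [DecidableEq V] [DecidableRel r] :
    tr r x = ((A r x ×ˢ A r x).filter fun p => r p.1 p.2).card := by
  rw [card_filter, sum_product]
  unfold tr
  refine sum_congr rfl fun b _ => ?_
  rw [← card_filter]
  congr 1
  ext w
  simp only [mem_inter, mem_A, mem_filter]

theorem two_tr (hl : ∀ v, ¬ r v v) (ha : ∀ u v, r u v → ¬ r v u) (x : V) :
    2 * tr r x + (A r x).card ≤ (A r x).card * (A r x).card := by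
  classical
  have h1 := pairs hl ha (A r x)
  rw [← tr_eq (r := r) x] at h1
  omega

end H3E
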