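import Mathlib
import Pool.Agent.Lib.H3E.Base

set_option autoImplicit false

namespace H3E

open Finset

variable {V : Type} [Fintype V] {r : V → V → Prop}

/-- The number of pairs at distance two does not change when all arcs are reversed. -/
theorem sum_B_flip : ∑ v, (B (flip r) v).card = ∑ v, (B r v).card := by
  classical
  have h1 : ∀ v, (B (flip r) v).card = ∑ w, if (w ≠ v ∧ ¬ r w v ∧ ∃ u, r u v ∧ r w u) then 1 else 0 := by
    intro v
    rw [← card_filter]
    congr 1
  have h2 : ∀ v, (B r v).card = ∑ w, if (w ≠ v ∧ ¬ r v w ∧ ∃ u, r v u ∧ r u w) then 1 else 0 := by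
    intro v
    rw [← card_filter]
    congr 1
  simp_rw [h1, h2]
  rw [sum_comm]
  refine sum_congr rfl fun v _ => sum_congr rfl fun w _ => ?_
  have h3 : (v ≠ w ∧ ¬ r v w ∧ ∃ u, r u w ∧ r v u) ↔ (w ≠ v ∧ ¬ r v w ∧ ∃ u, r v u ∧ r u w) := by
    rw [ne_comm]
    simp only [and_comm]
  simp only [h3]

/-- One side of the averaging. -/
theorem side (ha : ∀ u v, r u v → ¬ r v u) :
    ∑ x, (∑ b ∈ A r x, ((A r b).card : ℚ)) / (A r x).card ≤
      ∑ x, ((B r x).card : ℚ) + ∑ x, (tr r x : ℚ) / (A r x).card := by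
  rw [← sum_add_distrib]
  refine sum_le_sum fun x _ => ?_
  rcases Nat.eq_zero_or_pos (A r x).card with h | h
  · rw [h]
    simp
  · have h1 := sum_card_le ha x
    have h2 : (0 : ℚ) < (A r x).card := by exact_mod_cast h
    rw [div_le_iff₀ h2, add_mul, div_mul_cancel₀ _ h2.ne']
    have h3 : (∑ b ∈ A r x, ((A r b).card : ℚ)) ≤ tr r x + (A r x).card * (B r x).card := by
      exact_mod_cast h1
    linarith

/-- The refined inequality. -/
theorem refined (ha : ∀ u v, r u v → ¬ r v u) (he : ∀ v, (A r v).card = (A (flip r) v).card) :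
    ∑ v, ((A r v).card : ℚ) ≤ ∑ v, ((B r v).card : ℚ) +
      (∑ v, ((tr r v : ℚ) + tr (flip r) v) / (A r v).card) / 2 := by
  classical
  have h1 := side ha
  have h2 := side (r := flip r) (fun u v h h' => ha _ _ h h')
  have h3 : ∑ x, ((B (flip r) x).card : ℚ) = ∑ x, ((B r x).card : ℚ) := by
    exact_mod_cast sum_B_flip (r := r)
  rw [h3] at h2
  simp only [← he] at h2
  have h4 : 2 * ∑ v, ((A r v).card : ℚ) ≤ ∑ x, (∑ b ∈ A r x, ((A r b).card : ℚ)) / (A r x).card +
      ∑ x, (∑ b ∈ A (flip r) x, ((A r b).card : ℚ)) / (A r x).card := by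
    have h5 : ∑ x, (∑ b ∈ A r x, ((A r b).card : ℚ)) / (A r x).card =
        ∑ x, ∑ b, if r x b then ((A r b).card : ℚ) / (A r x).card else 0 := by
      refine sum_congr rfl fun x _ => ?_
      rw [sum_div, ← sum_filter]
      refine sum_congr ?_ fun _ _ => rfl
      ext b
      simp [mem_A]
    have h6 : ∑ x, (∑ b ∈ A (flip r) x, ((A r b).card : ℚ)) / (A r x).card =
        ∑ x, ∑ b, if r x b then ((A r x).card : ℚ) / (A r b).card else 0 := by
      rw [sum_comm]
      refine sum_congr rfl fun x _ => ?_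
      rw [sum_div, ← sum_filter]
      refine sum_congr ?_ fun _ _ => rfl
      ext b
      simp [mem_A, flip]
    have h7 : ∑ v, ((A r v).card : ℚ) = ∑ x, ∑ b, if r x b then (1 : ℚ) else 0 := by
      refine sum_congr rfl fun x _ => ?_
      rw [← sum_filter, sum_const, nsmul_eq_mul, mul_one]
      congr 2
    rw [h5, h6, h7, mul_sum, ← sum_add_distrib]
    refine sum_le_sum fun x _ => ?_
    rw [mul_sum, ← sum_add_distrib]
    refine sum_le_sum fun b _ => ?_
    by_cases hxb : r x b
    · rw [if_pos hxb, if_pos hxb, if_pos hxb]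
      have h8 : (0 : ℚ) < (A r x).card := by
        exact_mod_cast card_pos.2 ⟨b, mem_A.2 hxb⟩
      have h9 : (0 : ℚ) < (A r b).card := by
        rw [he]
        exact_mod_cast card_pos.2 ⟨x, mem_A.2 (show flip r b x from hxb)⟩
      rw [div_add_div _ _ h8.ne' h9.ne', mul_one, le_div_iff₀ (mul_pos h8 h9)]
      nlinarith [sq_nonneg (((A r x).card : ℚ) - (A r b).card)]
    · rw [if_neg hxb, if_neg hxb, if_neg hxb]
      norm_num
  have h10 : ∑ v, ((tr r v : ℚ) + tr (flip r) v) / (A r v).card =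
      ∑ x, (tr r x : ℚ) / (A r x).card + ∑ x, (tr (flip r) x : ℚ) / (A r x).card := by
    rw [← sum_add_distrib]
    refine sum_congr rfl fun x _ => ?_
    rw [add_div]
  rw [h10]
  linarith

/-- The constant one half. -/
theorem half (hl : ∀ v, ¬ r v v) (ha : ∀ u v, r u v → ¬ r v u)
    (he : ∀ v, (A r v).card = (A (flip r) v).card) [DecidablePred fun v : V => (A r v).Nonempty] :
    ∑ v, (A r v).card + (univ.filter fun v : V => (A r v).Nonempty).card ≤ 2 * ∑ v, (B r v).card := by
  have h1 := refined ha he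
  have h2 : ∑ v, ((tr r v : ℚ) + tr (flip r) v) / (A r v).card ≤
      ∑ v, (((A r v).card : ℚ) - if (A r v).Nonempty then 1 else 0) := by
    refine sum_le_sum fun v _ => ?_
    rcases Nat.eq_zero_or_pos (A r v).card with h | h
    · rw [h, if_neg (by rw [← card_pos, h]; exact lt_irrefl 0)]
      simp
    · have h2 : (0 : ℚ) < (A r v).card := by exact_mod_cast h
      have h3 := two_tr hl ha v
      have h4 := two_tr (r := flip r) hl (fun u v h h' => ha _ _ h h') v
      rw [← he] at h4
      rw [if_pos (card_pos.1 h), div_le_iff₀ h2]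
      have h5 : ((2 * tr r v + (A r v).card : ℕ) : ℚ) ≤ ((A r v).card * (A r v).card : ℕ) := by exact_mod_cast h3
      have h6 : ((2 * tr (flip r) v + (A r v).card : ℕ) : ℚ) ≤ ((A r v).card * (A r v).card : ℕ) := by
        exact_mod_cast h4
      push_cast at h5 h6
      nlinarith
  rw [sum_sub_distrib, sum_boole] at h2
  have h3 : ((∑ v, (A r v).card + (univ.filter fun v : V => (A r v).Nonempty).card : ℕ) : ℚ) ≤
      ((2 * ∑ v, (B r v).card : ℕ) : ℚ) := by
    push_cast
    linarith
  exact_mod_cast h3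

end H3E
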