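import Mathlib
import Pool.Agent.Lib.H3E.Base

set_option autoImplicit false

namespace H3E

open Finset

variable {V : Type} [Fintype V] {r : V → V → Prop}

theorem inter_B (ha : ∀ u v, r u v → ¬ r v u) {x b : V} (hb : b ∈ A r x) [DecidableEq V] :
    A r b ∩ B r x = A r b \ A r x := by
  ext w
  constructor
  · intro h
    rw [mem_inter, mem_B] at h
    exact mem_sdiff.2 ⟨h.1, fun h' => h.2.2.1 (mem_A.1 h')⟩
  · intro h
    exact mem_inter.2 ⟨(mem_sdiff.1 h).1, sdiff_sub ha hb h⟩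

theorem sum_ind (X Y : Finset V) [DecidableEq V] [DecidableRel r] :
    ∑ z ∈ Y, ∑ u ∈ X, (if r u z then 1 else 0) = ∑ u ∈ X, (A r u ∩ Y).card := by
  rw [sum_comm]
  refine sum_congr rfl fun u _ => ?_
  rw [← card_filter]
  congr 1
  ext w
  simp only [mem_filter, mem_inter, mem_A]
  exact and_comm

/-- The in-degree count in the second neighbourhood of x. -/
theorem indeg (hl : ∀ v, ¬ r v v) (ha : ∀ u v, r u v → ¬ r v u) {d : ℕ} (hA : ∀ v, (A r v).card = d)
    (hI : ∀ v, (A (flip r) v).card = d) {x b : V} (hb : b ∈ A r x) [DecidableEq V] :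
    2 * ∑ u ∈ A r x, (A r u \ A r x).card + (A r b \ A r x).card * (A r b \ A r x).card + d + 2 * tr r b ≤
      2 * (d * (B r x).card) + (A r b \ A r x).card + d * d := by
  classical
  set M := A r b \ A r x with hM
  have h1 : d * (B r x).card = ∑ z ∈ B r x, ∑ u, (if r u z then 1 else 0) := by
    rw [mul_comm, ← smul_eq_mul, ← sum_const]
    refine sum_congr rfl fun z _ => ?_
    rw [← hI z, ← card_filter]
    congr 1
  have h2 : ∑ z ∈ B r x, ∑ u ∈ A r x, (if r u z then 1 else 0) +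
      ∑ z ∈ B r x, ∑ u ∈ B r x, (if r u z then 1 else 0) ≤
      ∑ z ∈ B r x, ∑ u, (if r u z then 1 else 0) := by
    rw [← sum_add_distrib]
    refine sum_le_sum fun z _ => ?_
    have hd : Disjoint (A r x) (B r x) := by
      rw [disjoint_left]
      intro w h h'
      exact (mem_B.1 h').2.1 (mem_A.1 h)
    rw [← sum_union hd]
    exact sum_le_sum_of_subset (subset_univ _)
  have h3 : ∑ z ∈ B r x, ∑ u ∈ A r x, (if r u z then 1 else 0) = ∑ u ∈ A r x, (A r u \ A r x).card := by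
    rw [sum_ind]
    exact sum_congr rfl fun u hu => by rw [inter_B ha hu]
  have hMB : M ⊆ B r x := sdiff_sub ha hb
  have h4 : ((M ×ˢ M).filter fun p => r p.1 p.2).card ≤
      ∑ z ∈ B r x, ∑ u ∈ B r x, (if r u z then 1 else 0) := by
    rw [card_filter, sum_product]
    calc ∑ u ∈ M, ∑ z ∈ M, (if r u z then 1 else 0) ≤ ∑ u ∈ B r x, ∑ z ∈ M, (if r u z then 1 else 0) :=
          sum_le_sum_of_subset hMB
      _ ≤ ∑ u ∈ B r x, ∑ z ∈ B r x, (if r u z then 1 else 0) :=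
          sum_le_sum fun u _ => sum_le_sum_of_subset hMB
      _ = _ := sum_comm
  have h5 := pairs hl ha M
  have h6 := pairs hl ha (A r b)
  rw [← tr_eq (r := r) b, hA] at h6
  have h7 : ((M ×ˢ M).filter fun p => p.1 ≠ p.2 ∧ ¬ r p.1 p.2 ∧ ¬ r p.2 p.1).card ≤
      ((A r b ×ˢ A r b).filter fun p => p.1 ≠ p.2 ∧ ¬ r p.1 p.2 ∧ ¬ r p.2 p.1).card := by
    apply card_le_card
    apply filter_subset_filter
    exact product_subset_product sdiff_subset sdiff_subset
  rw [← h3]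
  omega

/-- The regular case. -/
theorem reg (hl : ∀ v, ¬ r v v) (ha : ∀ u v, r u v → ¬ r v u) {d : ℕ} (hA : ∀ v, (A r v).card = d)
    (hI : ∀ v, (A (flip r) v).card = d) :
    (Fintype.card V : ℤ) ^ 2 * d ^ 4 + Fintype.card V * d * ∑ v, (tr r v : ℤ) +
      (Fintype.card V * d ^ 2 - ∑ v, (tr r v : ℤ)) ^ 2 ≤
      2 * Fintype.card V * d ^ 3 * ∑ v, ((B r v).card : ℤ) := by
  classical
  -- the sum of the sizes of A b \ A x
  have hm : ∀ x, ∑ b ∈ A r x, ((A r b \ A r x).card : ℤ) = d ^ 2 - tr r x := by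
    intro x
    have h1 : ∀ b, ((A r b \ A r x).card : ℤ) = d - (A r x ∩ A r b).card := by
      intro b
      have h2 := card_sdiff_add_card_inter (A r b) (A r x)
      rw [inter_comm, hA] at h2
      have h3 : (((A r b \ A r x).card + (A r x ∩ A r b).card : ℕ) : ℤ) = (d : ℤ) := by exact_mod_cast h2
      push_cast at h3
      linarith
    simp only [h1]
    rw [sum_sub_distrib, sum_const, hA, nsmul_eq_mul]
    have h4 : (tr r x : ℤ) = ∑ b ∈ A r x, ((A r x ∩ A r b).card : ℤ) := by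
      unfold tr
      push_cast
      refine sum_congr rfl fun b _ => ?_
      congr!
    rw [h4]
    ring
  have h1 : ∀ x, ∀ b ∈ A r x, 2 * ((d : ℤ) ^ 2 - tr r x) + ((A r b \ A r x).card : ℤ) ^ 2 + d + 2 * tr r b ≤
      2 * (d * (B r x).card) + (A r b \ A r x).card + d ^ 2 := by
    intro x b hb
    have h2 := indeg hl ha hA hI hb
    have h3 : ((2 * ∑ u ∈ A r x, (A r u \ A r x).card + (A r b \ A r x).card * (A r b \ A r x).card + d +
        2 * tr r b : ℕ) : ℤ) ≤ ((2 * (d * (B r x).card) + (A r b \ A r x).card + d * d : ℕ) : ℤ) := by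
      exact_mod_cast h2
    push_cast at h3
    rw [hm] at h3
    nlinarith
  have h2 : ∀ x, 2 * (d : ℤ) * (d ^ 2 - tr r x) + ∑ b ∈ A r x, ((A r b \ A r x).card : ℤ) ^ 2 + d ^ 2 +
      2 * ∑ b ∈ A r x, (tr r b : ℤ) ≤ 2 * (d ^ 2 * (B r x).card) + (d ^ 2 - tr r x) + d ^ 3 := by
    intro x
    have h3 := sum_le_sum (h1 x)
    simp only [sum_add_distrib, sum_const, hA, nsmul_eq_mul, ← mul_sum] at h3
    rw [hm] at h3
    nlinarith
  have h3 : ∑ x, ∑ b ∈ A r x, (tr r b : ℤ) = d * ∑ v, (tr r v : ℤ) := by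
    have h4 : ∀ x, ∑ b ∈ A r x, (tr r b : ℤ) = ∑ b, if r x b then (tr r b : ℤ) else 0 := by
      intro x
      rw [← sum_filter]
      refine sum_congr ?_ fun _ _ => rfl
      ext b
      simp [mem_A]
    simp only [h4]
    rw [sum_comm, mul_sum]
    refine sum_congr rfl fun b _ => ?_
    rw [← sum_filter, sum_const, nsmul_eq_mul]
    congr 2
    rw [← hI b]
    congr 1
  set Q : ℤ := ∑ x, ∑ b ∈ A r x, ((A r b \ A r x).card : ℤ) ^ 2 with hQ
  set t : ℤ := ∑ v, (tr r v : ℤ) with ht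
  set S : ℤ := ∑ v, ((B r v).card : ℤ) with hS
  set n : ℤ := (Fintype.card V : ℤ) with hn
  have h4 : n * d ^ 3 + t + Q ≤ 2 * d ^ 2 * S := by
    have h5 := sum_le_sum fun x (_ : x ∈ (univ : Finset V)) => h2 x
    simp only [sum_add_distrib, sum_const, card_univ, nsmul_eq_mul, ← mul_sum, sum_sub_distrib, h3] at h5
    rw [← hQ, ← ht, ← hS, ← hn] at h5
    nlinarith
  have h5 : (n * d ^ 2 - t) ^ 2 ≤ n * d * Q := by
    have h6 : ∀ x, ((d : ℤ) ^ 2 - tr r x) ^ 2 ≤ d * ∑ b ∈ A r x, ((A r b \ A r x).card : ℤ) ^ 2 := by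
      intro x
      rw [← hm, ← hA x]
      exact sq_sum_le_card_mul_sum_sq
    have h7 : (∑ x : V, ((d : ℤ) ^ 2 - tr r x)) ^ 2 ≤ n * ∑ x : V, ((d : ℤ) ^ 2 - tr r x) ^ 2 := by
      have := sq_sum_le_card_mul_sum_sq (s := (univ : Finset V)) (f := fun x => ((d : ℤ) ^ 2 - tr r x))
      rwa [card_univ] at this
    have h8 : ∑ x : V, ((d : ℤ) ^ 2 - tr r x) = n * d ^ 2 - t := by
      rw [sum_sub_distrib, sum_const, card_univ, nsmul_eq_mul]
    have h9 : ∑ x : V, ((d : ℤ) ^ 2 - tr r x) ^ 2 ≤ d * Q := by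
      rw [hQ, mul_sum]
      exact sum_le_sum fun x _ => h6 x
    rw [h8] at h7
    have hn0 : 0 ≤ n := Int.natCast_nonneg _
    nlinarith
  have hn0 : 0 ≤ n := Int.natCast_nonneg _
  have hd0 : (0 : ℤ) ≤ d := Int.natCast_nonneg _
  have h6 := mul_le_mul_of_nonneg_left h4 (mul_nonneg hn0 hd0)
  nlinarith

/-- The constant five eighths. -/
theorem five_eighths (hl : ∀ v, ¬ r v v) (ha : ∀ u v, r u v → ¬ r v u) {d : ℕ}
    (hA : ∀ v, (A r v).card = d) (hI : ∀ v, (A (flip r) v).card = d) (hd : 0 < d) :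
    (Fintype.card V : ℤ) * (5 * d ^ 2 + 4 * d - 1) ≤ 8 * d * ∑ v, ((B r v).card : ℤ) := by
  classical
  have h1 := reg hl ha hA hI
  set t : ℤ := ∑ v, (tr r v : ℤ) with ht
  set S : ℤ := ∑ v, ((B r v).card : ℤ) with hS
  set n : ℤ := (Fintype.card V : ℤ) with hn
  have hn0 : 0 ≤ n := Int.natCast_nonneg _
  have hd0 : (1 : ℤ) ≤ d := by exact_mod_cast hd
  have h2 : 2 * t ≤ n * d * (d - 1) := by
    have h3 : ∀ v, 2 * (tr r v : ℤ) ≤ d * (d - 1) := by
      intro v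
      have h4 := two_tr hl ha v
      rw [hA] at h4
      have h5 : ((2 * tr r v + d : ℕ) : ℤ) ≤ ((d * d : ℕ) : ℤ) := by exact_mod_cast h4
      push_cast at h5
      linarith
    rw [ht, mul_sum]
    calc ∑ v, 2 * (tr r v : ℤ) ≤ ∑ v : V, (d : ℤ) * (d - 1) := sum_le_sum fun v _ => h3 v
      _ = n * d * (d - 1) := by
        rw [sum_const, card_univ, nsmul_eq_mul]
        ring
  rcases hn0.eq_or_lt with h0 | h0
  · rw [← h0, zero_mul]
    have hS0 : 0 ≤ S := sum_nonneg fun v _ => Int.natCast_nonneg _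
    exact mul_nonneg (mul_nonneg (by norm_num) (by linarith)) hS0
  · -- u = n d (d - 1) - 2 t >= 0
    have hnd : 0 < n * (d : ℤ) ^ 2 := mul_pos h0 (pow_pos (by linarith) 2)
    refine le_of_mul_le_mul_left ?_ hnd
    have h5 : 0 ≤ n * d * (d - 1) - 2 * t := by linarith
    have h6 : 0 ≤ 2 * (n * (d : ℤ) ^ 2) * (n * d * (d - 1) - 2 * t) :=
      mul_nonneg (mul_nonneg (by norm_num) hnd.le) h5
    have h7 : 0 ≤ (n * d * (d - 1) - 2 * t) ^ 2 := sq_nonneg _
    have h8 : n * (d : ℤ) ^ 2 * (n * (5 * d ^ 2 + 4 * d - 1)) +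
        (2 * (n * d ^ 2) * (n * d * (d - 1) - 2 * t) + (n * d * (d - 1) - 2 * t) ^ 2) =
        4 * (n ^ 2 * d ^ 4 + n * d * t + (n * d ^ 2 - t) ^ 2) := by ring
    have h9 : n * (d : ℤ) ^ 2 * (8 * d * S) = 4 * (2 * n * d ^ 3 * S) := by ring
    rw [h9]
    linarith

end H3E
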